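import Pool.Agent.Helper40.DetLow.Main
import Pool.Agent.Helper6.MatSym.Upper

set_option autoImplicit false

/-!
A lower bound for the Waring rank of the generic determinant, for all sizes.
-/

namespace Pool.Agent.Results.MP_77d7e7_ag.CentralBinomialLower

/-- The determinant of the generic `d × d` matrix, a form of degree `d` in `d ^ 2` variables. -/
noncomputable def genericDet (d : ℕ) : MvPolynomial (Fin d × Fin d) ℂ :=
  (Matrix.of fun i j : Fin d => (MvPolynomial.X (i, j) : MvPolynomial (Fin d × Fin d) ℂ)).det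

/-- `F` is a sum of `r` powers with exponent `d` of homogeneous linear forms. -/
def IsPowerSum {σ : Type} [Fintype σ] (F : MvPolynomial σ ℂ) (d r : ℕ) : Prop :=
  ∃ l : Fin r → σ → ℂ,
    F = ∑ t, (∑ p, MvPolynomial.C (l t p) * MvPolynomial.X p) ^ d

/-- The Waring rank of a form `F` of degree `d`: the least length of a power sum decomposition. -/
noncomputable def waringRank {σ : Type} [Fintype σ] (F : MvPolynomial σ ℂ) (d : ℕ) : ℕ :=
  sInf {r | IsPowerSum F d r}

/-- Values of the generic determinant. -/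
theorem eval_genericDet {d : ℕ} (x : Fin d × Fin d → ℂ) :
    MvPolynomial.eval x (genericDet d) =
      (Matrix.of fun i j => x (i, j) : Matrix (Fin d) (Fin d) ℂ).det := by
  rw [genericDet, RingHom.map_det]
  congr 1
  ext i j
  simp

/-- The Waring rank of the generic determinant of size `d` is at least
`choose (2 d) (d - 1) = (1 - 1 / (d + 1)) * choose (2 d) d`. -/
theorem result : ∀ d : ℕ, 1 ≤ d →
    IsPowerSum (genericDet d) d (waringRank (genericDet d) d) ∧
      (2 * d).choose (d - 1) ≤ waringRank (genericDet d) d ∧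
      (1 - 1 / ((d : ℝ) + 1)) * ((2 * d).choose d : ℝ) ≤ waringRank (genericDet d) d := by
  intro d hd
  obtain ⟨n, rfl⟩ : ∃ n, d = n + 1 := ⟨d - 1, by omega⟩
  have hlow : ∀ r, IsPowerSum (genericDet (n + 1)) (n + 1) r →
      (2 * (n + 1)).choose (n + 1 - 1) ≤ r := by
    rintro r ⟨l, hl⟩
    have h := Pool.Agent.Helper40.DetLow.main (K := ℂ) (n := n) (r := r)
      (fun t => Matrix.of fun i j => l t (i, j)) (fun x => by
        have h := congrArg (MvPolynomial.eval fun p : Fin (n + 1) × Fin (n + 1) => x p.1 p.2) hl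
        rw [eval_genericDet] at h
        have hx : (Matrix.of fun i j => x i j : Matrix (Fin (n + 1)) (Fin (n + 1)) ℂ) = x := rfl
        simp only [map_sum, map_pow, map_mul, MvPolynomial.eval_C, MvPolynomial.eval_X,
          Fintype.sum_prod_type] at h
        rw [hx] at h
        simpa only [Matrix.of_apply] using h)
    rw [Nat.add_sub_cancel, show 2 * (n + 1) = 2 * n + 2 by ring]
    exact h
  obtain ⟨f, hf, _⟩ := Pool.Agent.Helper6.MatSym.exists_dec (n + 1) hd
  have hmem : IsPowerSum (genericDet (n + 1)) (n + 1) (waringRank (genericDet (n + 1)) (n + 1)) :=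
    Nat.sInf_mem (s := {r | IsPowerSum (genericDet (n + 1)) (n + 1) r}) ⟨_, ⟨f, hf⟩⟩
  have h1 := hlow _ hmem
  refine ⟨hmem, h1, ?_⟩
  have h2 : ((2 * (n + 1)).choose (n + 1) : ℝ) * ((n : ℝ) + 1) =
      ((2 * (n + 1)).choose n : ℝ) * ((n : ℝ) + 2) := by
    have := Nat.choose_succ_right_eq (2 * (n + 1)) n
    have e : 2 * (n + 1) - n = n + 2 := by omega
    rw [e] at this
    exact_mod_cast this
  have h3 : (1 - 1 / (((n + 1 : ℕ) : ℝ) + 1)) * ((2 * (n + 1)).choose (n + 1) : ℝ) =
      ((2 * (n + 1)).choose (n + 1 - 1) : ℝ) := by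
    rw [Nat.add_sub_cancel]
    have h4 : ((n : ℝ) + 2) ≠ 0 := by positivity
    push_cast
    have h5 : ((n : ℝ) + 1 + 1) = (n : ℝ) + 2 := by ring
    rw [h5]
    field_simp
    linear_combination h2
  rw [h3]
  exact_mod_cast h1

end Pool.Agent.Results.MP_77d7e7_ag.CentralBinomialLower
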