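import Pool.Agent.Helper36.WR.Fi
import Pool.Agent.Helper36.WR.Red
import Pool.Agent.Helper36.WR.Up

set_option autoImplicit false

/-!
The Waring rank of the generic `3 × 3` determinant is equal to `18`.
-/

namespace Pool.Agent.Results.MP_77d7e7_ag.DetThreeRank

open Finset

/-- The determinant of the generic `d × d` matrix, a form of degree `d` in `d ^ 2` variables. -/
noncomputable def genericDet (d : ℕ) : MvPolynomial (Fin d × Fin d) ℂ :=
  (Matrix.of fun i j : Fin d => (MvPolynomial.X (i, j) : MvPolynomial (Fin d × Fin d) ℂ)).det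

/-- `F` is a sum of `r` powers with exponent `d` of homogeneous linear forms. -/
def IsPowerSum {σ : Type} [Fintype σ] (F : MvPolynomial σ ℂ) (d r : ℕ) : Prop :=
  ∃ l : Fin r → σ → ℂ,
    F = ∑ t, (∑ p, MvPolynomial.C (l t p) * MvPolynomial.X p) ^ d

/-- The Waring rank of a form `F` of degree `d`: the least length of a power sum decomposition. -/
noncomputable def waringRank {σ : Type} [Fintype σ] (F : MvPolynomial σ ℂ) (d : ℕ) : ℕ :=
  sInf {r | IsPowerSum F d r}

/-- Values of the generic determinant. -/
theorem eval_genericDet (x : Fin 3 × Fin 3 → ℂ) :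
    MvPolynomial.eval x (genericDet 3) =
      (Matrix.of fun i j => x (i, j) : Matrix (Fin 3) (Fin 3) ℂ).det := by
  rw [genericDet, RingHom.map_det]
  congr 1
  ext i j
  simp

/-- The Waring rank of the generic `3 × 3` determinant over `ℂ` is `18`: it is a sum of `18` cubes of
linear forms and not a sum of fewer cubes of linear forms. -/
theorem result : IsLeast {r | IsPowerSum (genericDet 3) 3 r} 18 ∧
    waringRank (genericDet 3) 3 = 18 := by
  have hleast : IsLeast {r | IsPowerSum (genericDet 3) 3 r} 18 := by
    refine ⟨?_, ?_⟩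
    · obtain ⟨l, hl⟩ := Pool.Agent.Helper36.WR.upper
      refine ⟨fun t p => l t p.1 p.2, MvPolynomial.funext fun x => ?_⟩
      rw [eval_genericDet, hl]
      simp only [map_sum, map_pow, map_mul, MvPolynomial.eval_C, MvPolynomial.eval_X,
        Fintype.sum_prod_type, Matrix.of_apply]
    · rintro r ⟨l, hl⟩
      by_contra hlt
      obtain ⟨s, hs, ⟨D⟩⟩ := Pool.Agent.Helper36.WR.exists_dat (r := r)
        (l := fun t => Matrix.of fun i j => l t (i, j)) (fun x => by
          have h := congrArg (MvPolynomial.eval fun p : Fin 3 × Fin 3 => x p.1 p.2) hl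
          rw [eval_genericDet] at h
          have hx : (Matrix.of fun i j => x i j : Matrix (Fin 3) (Fin 3) ℂ) = x := rfl
          simp only [map_sum, map_pow, map_mul, MvPolynomial.eval_C, MvPolynomial.eval_X,
            Fintype.sum_prod_type] at h
          rw [hx] at h
          simpa only [Matrix.of_apply] using h)
      exact D.no_dat (by omega)
  refine ⟨hleast, ?_⟩
  exact hleast.csInf_eq

end Pool.Agent.Results.MP_77d7e7_ag.DetThreeRank
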