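import Pool.Agent.Helper26.DR.St.Final
import Pool.Agent.Helper26.DR.St.Waring

set_option autoImplicit false

namespace Pool.Agent.Results.MP_77d7e7_ag.PowerSavingUpper

open Pool.Agent.Helper26.DR

/-- The determinant of the generic `d × d` matrix, a form of degree `d` in `d ^ 2` variables. -/
noncomputable def genericDet (d : ℕ) : MvPolynomial (Fin d × Fin d) ℂ :=
  (Matrix.of fun i j : Fin d => (MvPolynomial.X (i, j) : MvPolynomial (Fin d × Fin d) ℂ)).det

/-- `F` is a sum of `r` powers with exponent `d` of homogeneous linear forms. -/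
def IsPowerSum {σ : Type} [Fintype σ] (F : MvPolynomial σ ℂ) (d r : ℕ) : Prop :=
  ∃ l : Fin r → σ → ℂ,
    F = ∑ t, (∑ p, MvPolynomial.C (l t p) * MvPolynomial.X p) ^ d

/-- The Waring rank of a form `F` of degree `d`: the least length of a power sum decomposition. -/
noncomputable def waringRank {σ : Type} [Fintype σ] (F : MvPolynomial σ ℂ) (d : ℕ) : ℕ :=
  sInf {r | IsPowerSum F d r}

/-- There is a constant `C` such that for all `d ≥ 1` the Waring rank of the generic determinant of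
size `d` is at most `C ^ d * d ^ (21 d / 25)`. -/
theorem result : ∃ C : ℝ, 0 < C ∧ ∀ d : ℕ, 1 ≤ d →
    IsPowerSum (genericDet d) d (waringRank (genericDet d) d) ∧
      (waringRank (genericDet d) d : ℝ) ≤ C ^ d * (d : ℝ) ^ ((21 / 25 : ℝ) * d) := by
  obtain ⟨C, hC, h⟩ := TR.main
  refine ⟨2 * C, by positivity, fun d hd => ?_⟩
  obtain ⟨r, hr, hle⟩ := h d hd
  have hmem : (2 ^ d * r) ∈ {r | IsPowerSum (genericDet d) d r} := by
    obtain ⟨l, hl⟩ := waring_of_TR hd hr
    exact ⟨l, hl⟩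
  refine ⟨Nat.sInf_mem ⟨_, hmem⟩, ?_⟩
  have h1 : waringRank (genericDet d) d ≤ 2 ^ d * r := Nat.sInf_le hmem
  calc (waringRank (genericDet d) d : ℝ) ≤ ((2 ^ d * r : ℕ) : ℝ) := by exact_mod_cast h1
    _ = 2 ^ d * (r : ℝ) := by push_cast; ring
    _ ≤ 2 ^ d * (C ^ d * (d : ℝ) ^ ((21 / 25 : ℝ) * d)) := by gcongr
    _ = (2 * C) ^ d * (d : ℝ) ^ ((21 / 25 : ℝ) * d) := by rw [mul_pow]; ring

end Pool.Agent.Results.MP_77d7e7_ag.PowerSavingUpper
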