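import Pool.Agent.Helper6.SymW.Main

set_option autoImplicit false

/-!
Decompositions of the generic determinant that are symmetric under the simultaneous permutations of
rows and columns, `x i j ↦ x (π i) (π j)`, which preserve the determinant.
-/

namespace Pool.Agent.Results.MP_77d7e7_ag.SymmetricRank

open Filter

/-- The determinant of the generic `d × d` matrix, a form of degree `d` in `d ^ 2` variables. -/
noncomputable def genericDet (d : ℕ) : MvPolynomial (Fin d × Fin d) ℂ :=
  (Matrix.of fun i j : Fin d => (MvPolynomial.X (i, j) : MvPolynomial (Fin d × Fin d) ℂ)).det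

/-- `F` is the sum of the `d`-th powers of the `r` linear forms with the coefficients `l t`. -/
def IsPowerSum {d r : ℕ} (F : MvPolynomial (Fin d × Fin d) ℂ)
    (l : Fin r → Fin d × Fin d → ℂ) : Prop :=
  F = ∑ t, (∑ p, MvPolynomial.C (l t p) * MvPolynomial.X p) ^ d

/-- Every simultaneous permutation of rows and columns in `H` maps each of the linear forms to a
multiple of one of them. -/
def LineStable {d r : ℕ} (H : Subgroup (Equiv.Perm (Fin d))) (l : Fin r → Fin d × Fin d → ℂ) :
    Prop :=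
  ∀ π ∈ H, ∀ t, ∃ u, ∃ c : ℂ, ∀ i j, l t (π i, π j) = c * l u (i, j)

/-- Every simultaneous permutation of rows and columns permutes the linear forms. -/
def FullySymmetric {d r : ℕ} (l : Fin r → Fin d × Fin d → ℂ) : Prop :=
  ∀ π : Equiv.Perm (Fin d), ∃ τ : Equiv.Perm (Fin r), ∀ t i j, l t (π i, π j) = l (τ t) (i, j)

/-- The Waring rank of the generic determinant. -/
noncomputable def waringRank (d : ℕ) : ℕ :=
  sInf {r | ∃ l : Fin r → Fin d × Fin d → ℂ, IsPowerSum (genericDet d) l}

/-- The symmetric Waring rank: the least length of a power sum decomposition of the generic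
determinant whose forms are permuted by all simultaneous permutations of rows and columns. -/
noncomputable def symmetricRank (d : ℕ) : ℕ :=
  sInf {r | ∃ l : Fin r → Fin d × Fin d → ℂ, IsPowerSum (genericDet d) l ∧ FullySymmetric l}

/-- The generic determinant is a limit of forms having power sum decompositions of length `r`
whose lines are stable under the simultaneous permutations in `H`. -/
def IsBorderLength (d : ℕ) (H : Subgroup (Equiv.Perm (Fin d))) (r : ℕ) : Prop :=
  ∃ F : ℕ → MvPolynomial (Fin d × Fin d) ℂ,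
    (∀ m, Tendsto (fun k => MvPolynomial.coeff m (F k)) atTop
      (nhds (MvPolynomial.coeff m (genericDet d)))) ∧
    ∀ k, ∃ l : Fin r → Fin d × Fin d → ℂ, IsPowerSum (F k) l ∧ LineStable H l

/-- The symmetric border Waring rank (stable under all simultaneous permutations). -/
noncomputable def symmetricBorderRank (d : ℕ) : ℕ := sInf {r | IsBorderLength d ⊤ r}

/-- The symmetric Waring rank and border rank of the determinant are between
`((1 - ε) d / (e log d)) ^ d` and `((2 + ε) d / (e log d)) ^ d` for large `d`; every decomposition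
or border decomposition stable under a subgroup `H` of the simultaneous permutations has length at
least `|H| / ((1 + ε) log d) ^ d` for large `d`; and the symmetric border rank exceeds
`d ^ (d / 7)` times the Waring rank for large `d`. -/
theorem result :
    (∀ d : ℕ, 1 ≤ d →
      (∃ l : Fin (symmetricRank d) → Fin d × Fin d → ℂ,
        IsPowerSum (genericDet d) l ∧ FullySymmetric l) ∧
      IsBorderLength d ⊤ (symmetricBorderRank d) ∧
      symmetricBorderRank d ≤ symmetricRank d) ∧
    (∀ ε : ℝ, 0 < ε → ε < 1 → ∀ᶠ d : ℕ in atTop,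
      ((1 - ε) * d / (Real.exp 1 * Real.log d)) ^ d ≤ symmetricBorderRank d ∧
      (symmetricRank d : ℝ) ≤ ((2 + ε) * d / (Real.exp 1 * Real.log d)) ^ d) ∧
    (∀ ε : ℝ, 0 < ε → ∀ᶠ d : ℕ in atTop, ∀ (H : Subgroup (Equiv.Perm (Fin d))) (r : ℕ),
      IsBorderLength d H r → (Nat.card H : ℝ) ≤ ((1 + ε) * Real.log d) ^ d * r) ∧
    (∀ᶠ d : ℕ in atTop, (d : ℝ) ^ ((d : ℝ) / 7) * waringRank d < symmetricBorderRank d) := by
  have hcardTop : ∀ d : ℕ, Nat.card (⊤ : Subgroup (Equiv.Perm (Fin d))) = d.factorial := by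
    intro d
    rw [Subgroup.card_top, Nat.card_eq_fintype_card, Fintype.card_perm, Fintype.card_fin]
  have hbasic : ∀ d : ℕ, 1 ≤ d →
      (∃ l : Fin (symmetricRank d) → Fin d × Fin d → ℂ,
        IsPowerSum (genericDet d) l ∧ FullySymmetric l) ∧
      IsBorderLength d ⊤ (symmetricBorderRank d) ∧
      symmetricBorderRank d ≤ symmetricRank d := by
    intro d hd
    obtain ⟨r, f, hf, hsym, hr⟩ := Pool.Agent.Helper6.SymW.exists_sym d hd
    have hmem : r ∈ {r | ∃ l : Fin r → Fin d × Fin d → ℂ,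
        IsPowerSum (genericDet d) l ∧ FullySymmetric l} := ⟨f, hf, hsym⟩
    have h1 : ∃ l : Fin (symmetricRank d) → Fin d × Fin d → ℂ,
        IsPowerSum (genericDet d) l ∧ FullySymmetric l :=
      Nat.sInf_mem (s := {r | ∃ l : Fin r → Fin d × Fin d → ℂ,
        IsPowerSum (genericDet d) l ∧ FullySymmetric l}) ⟨r, hmem⟩
    have h3 : IsBorderLength d ⊤ (symmetricRank d) := by
      obtain ⟨l, hl1, hl2⟩ := h1
      refine ⟨fun _ => genericDet d, fun m => tendsto_const_nhds, fun _ => ⟨l, hl1, ?_⟩⟩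
      intro π _ t
      obtain ⟨τ, hτ⟩ := hl2 π
      exact ⟨τ t, 1, fun i j => by rw [one_mul, hτ]⟩
    exact ⟨h1, Nat.sInf_mem (s := {r | IsBorderLength d ⊤ r}) ⟨_, h3⟩, Nat.sInf_le h3⟩
  have hgroup : ∀ ε : ℝ, 0 < ε → ∀ᶠ d : ℕ in atTop,
      ∀ (H : Subgroup (Equiv.Perm (Fin d))) (r : ℕ),
      IsBorderLength d H r → (Nat.card H : ℝ) ≤ ((1 + ε) * Real.log d) ^ d * r := by
    intro ε hε
    filter_upwards [Pool.Agent.Helper6.SymW.group_le' ε hε] with d hd H r hb
    obtain ⟨F, hF, hl⟩ := hb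
    exact hd r H F hF hl
  refine ⟨hbasic, ?_, hgroup, ?_⟩
  · intro ε hε hε1
    filter_upwards [hgroup ε hε, Pool.Agent.Helper6.SymW.upper_num' ε hε,
      eventually_ge_atTop 2] with d h1 h2 hd2
    obtain ⟨r, f, hf, hsym, hr⟩ := Pool.Agent.Helper6.SymW.exists_sym d (by omega)
    have hmem : r ∈ {r | ∃ l : Fin r → Fin d × Fin d → ℂ,
        IsPowerSum (genericDet d) l ∧ FullySymmetric l} := ⟨f, hf, hsym⟩
    have h3 : symmetricRank d ≤ r := Nat.sInf_le hmem
    refine ⟨?_, ?_⟩
    · refine Pool.Agent.Helper6.SymW.lower_num' hε hε1 hd2 ?_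
      have h4 := h1 ⊤ _ (hbasic d (by omega)).2.1
      rw [hcardTop] at h4
      exact h4
    · exact le_trans (by exact_mod_cast h3) (hr.trans h2)
  · obtain ⟨C, hC, h⟩ := Pool.Agent.Helper26.DR.TR.main
    filter_upwards [Pool.Agent.Helper6.SymW.gap_num (2 * C) (by positivity),
      eventually_ge_atTop 2] with d hd hd2
    have h1 : ((d : ℝ) / (82 * Real.log d)) ^ d ≤ symmetricBorderRank d := by
      obtain ⟨F, hF, hl⟩ := (hbasic d (by omega)).2.1
      have h4 := Pool.Agent.Helper6.SymW.group_le hd2 ⊤ F hF hl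
      rw [hcardTop] at h4
      exact Pool.Agent.Helper6.SymW.lower_num hd2 (by linarith)
    obtain ⟨r, hr, hle⟩ := h d (by omega)
    have hmem : (2 ^ d * r) ∈ {r | ∃ l : Fin r → Fin d × Fin d → ℂ,
        IsPowerSum (genericDet d) l} := by
      obtain ⟨l, hl⟩ := Pool.Agent.Helper26.DR.waring_of_TR (by omega : 1 ≤ d) hr
      exact ⟨l, hl⟩
    have h2 : waringRank d ≤ 2 ^ d * r := Nat.sInf_le hmem
    have h3 : (waringRank d : ℝ) ≤ (2 * C) ^ d * (d : ℝ) ^ ((21 / 25 : ℝ) * d) := by
      calc (waringRank d : ℝ) ≤ ((2 ^ d * r : ℕ) : ℝ) := by exact_mod_cast h2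
        _ = 2 ^ d * (r : ℝ) := by push_cast; ring
        _ ≤ 2 ^ d * (C ^ d * (d : ℝ) ^ ((21 / 25 : ℝ) * d)) := by gcongr
        _ = (2 * C) ^ d * (d : ℝ) ^ ((21 / 25 : ℝ) * d) := by rw [mul_pow]; ring
    calc (d : ℝ) ^ ((d : ℝ) / 7) * (waringRank d : ℝ)
        ≤ (d : ℝ) ^ ((d : ℝ) / 7) * ((2 * C) ^ d * (d : ℝ) ^ ((21 / 25 : ℝ) * d)) :=
          mul_le_mul_of_nonneg_left h3 (by positivity)
      _ < (d / (82 * Real.log d)) ^ d := hd
      _ ≤ symmetricBorderRank d := h1

end Pool.Agent.Results.MP_77d7e7_ag.SymmetricRank
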